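import Pool.Agent.Q113.XV.Stm
import Pool.Agent.W654.K5.TWOIID

set_option autoImplicit false

/-! Project XV (helper113), job IDS: from two-point data to i.i.d. variables, with a gain. -/

namespace Pool.Agent.Q238.XV

open Finset Pool.Agent.W205.K5 Pool.Agent.W890.SF Pool.Agent.W593.IR Pool.Agent.Q113.XV
open Pool.Agent.W654.K5

/-- the probability for one variable -/
theorem PP_one (a b q : ℝ) : PP (fun _ : Fin 1 => a) (fun _ => b) (fun _ => q) =
    (if 0 < 1 - a then 1 - q else 0) + (if b < 1 - a then q else 0) := by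
  have hp : (univ : Finset (Fin 1)).powerset = {∅, {0}} := by decide
  unfold PP PU Wt
  rw [hp, sum_pair (by decide)]
  simp

/-- the sum over the pairs -/
theorem sum_pairs {P : Type} [Fintype P] (π : P → ℝ) (h1 : ∑ p, π p = 1) (k : ℕ) (hk : 2 ≤ k)
    (f h : P → ℝ) :
    ∑ p : Fin k → P, (∏ i, π (p i)) * (f (p ⟨1, by omega⟩) * h (p ⟨0, by omega⟩)) =
      (∑ p, π p * f p) * ∑ p, π p * h p := by
  have e := sum_castLE π h1 2 k hk (fun p => f (p 1) * h (p 0))
  have e1 : ∑ p : Fin k → P, (∏ i, π (p i)) * (f (p ⟨1, by omega⟩) * h (p ⟨0, by omega⟩)) =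
      ∑ p : Fin 2 → P, (∏ i, π (p i)) * (f (p 1) * h (p 0)) := e.symm
  rw [e1]
  rw [← Equiv.sum_comp (finTwoArrowEquiv P).symm, Fintype.sum_prod_type]
  rw [sum_mul_sum, sum_comm]
  apply sum_congr rfl
  intro x _
  apply sum_congr rfl
  intro z _
  rw [Fin.prod_univ_two]
  simp only [finTwoArrowEquiv_symm_apply, Matrix.cons_val_zero, Matrix.cons_val_one]
  ring

theorem min_aux {F H c : ℝ} (hF : 0 ≤ F) (hH : 0 ≤ H) (h : c ≤ F + H) :
    c / 2 * min F H ≤ F * H := by
  rcases le_total F H with h1 | h1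
  · rw [min_eq_left h1]
    have : c / 2 ≤ H := by linarith
    nlinarith
  · rw [min_eq_right h1]
    have : c / 2 ≤ F := by linarith
    nlinarith

theorem t_IDS (h1 : S_MIX1) (h2 : S_MIX2) (ftg : S_FTG) : S_IDS := by
  intro k hk3 hTWO
  have hk : 2 ≤ k := by omega
  obtain ⟨κ, hκ, hTWO⟩ := hTWO
  have hk0 : (0 : ℝ) < k := by exact_mod_cast (by omega : 0 < k)
  have hk3' : (3 : ℝ) ≤ k := by exact_mod_cast hk3
  have hinv0 : 0 < 1 / (k : ℝ) := by positivity
  have hinv3 : 1 / (k : ℝ) ≤ 1 / 3 := one_div_le_one_div_of_le (by norm_num) hk3'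
  set c : ℝ := 1 / (8 * (k : ℝ)) with hc
  have hc0 : 0 < c := by positivity
  have hc8 : c = (1 / (k : ℝ)) / 8 := by rw [hc]; field_simp
  refine ⟨κ * (c / 4), by positivity, ?_⟩
  intro V _ _ y hy hsum ρ hρ0 hρ1 hρ
  have hN : (0 : ℝ) < (Fintype.card V : ℝ) := by exact_mod_cast Fintype.card_pos
  by_cases hcst : ∀ v, y v = 1 / (k : ℝ)
  · rw [const_case k hk V y hcst ρ]
    have e1 : (∑ v, |y v - 1 / (k : ℝ)|) / (Fintype.card V : ℝ) = 0 := by
      rw [sum_eq_zero (fun v _ => by rw [hcst v]; simp), zero_div]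
    rw [e1]
    have e2 : min (0 : ℝ) ((NL y 1 : ℝ) / (Fintype.card V : ℝ) - (1 - 1 / (k : ℝ))) ≤ 0 :=
      min_le_left _ _
    have e3 : κ * (c / 4) * min (0 : ℝ) ((NL y 1 : ℝ) / (Fintype.card V : ℝ) - (1 - 1 / (k : ℝ))) ≤ 0 :=
      mul_nonpos_of_nonneg_of_nonpos (by positivity) e2
    linarith
  · push Not at hcst
    have hm : ∑ v, y v = 1 / (k : ℝ) * (Fintype.card V : ℝ) := by
      rw [← hsum]
      field_simp
    obtain ⟨P, iP, π, a, b, q, hπ, hπ1, hab, hφ, -⟩ := h2 V y (1 / (k : ℝ)) hy hm hcst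
    have e : ∀ j ∈ range (k + 1), (NL y j : ℝ) / (Fintype.card V : ℝ) ^ j =
        ∑ p : Fin k → P, (∏ i, π (p i)) * Wn (ex a p) (ex b p) (ex q p) j := by
      intro j hj
      have hjk : j ≤ k := by
        have := Finset.mem_range.mp hj
        omega
      have e1 := h1 V P y π a b q hφ j
      unfold NL
      rw [e1, mul_div_cancel_left₀ _ (pow_pos hN j).ne']
      rw [sum_castLE π hπ1 j k hjk
        (fun p => PP (fun i => a (p i)) (fun i => b (p i)) (fun i => q (p i)))]
      refine Finset.sum_congr rfl fun p _ => ?_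
      unfold Wn
      rw [ex_fun a p j hjk, ex_fun b p j hjk, ex_fun q p j hjk]
    have hTD : ∀ p : Fin k → P, TD k (ex a p) (ex b p) (ex q p) := by
      intro p i hi
      rw [ex_eq a p i hi, ex_eq b p i hi, ex_eq q p i hi]
      exact hab _
    have hTh : Th k ρ (fun j => (NL y j : ℝ) / (Fintype.card V : ℝ) ^ j) =
        ∑ p : Fin k → P, (∏ i, π (p i)) * Th k ρ (Wn (ex a p) (ex b p) (ex q p)) := by
      unfold Th
      beta_reduce
      rw [Finset.sum_congr rfl (fun j hj => by rw [e j hj, Finset.mul_sum])]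
      rw [Finset.sum_comm]
      refine Finset.sum_congr rfl fun p _ => ?_
      rw [Finset.mul_sum]
      refine Finset.sum_congr rfl fun j _ => ?_
      ring
    -- the functions `f` and `h`
    set f : P → ℝ := fun p => q p * (1 - q p) * b p with hf
    set h : P → ℝ := fun p => PP (fun _ : Fin 1 => a p) (fun _ => b p) (fun _ => q p) -
      (1 - 1 / (k : ℝ)) with hh
    have hfacts : ∀ p, 0 ≤ f p ∧ f p ≤ 1 ∧ 0 ≤ h p ∧ h p ≤ 1 ∧ c ≤ f p + h p := by
      intro p
      obtain ⟨ha, hb, hq0, hq1, hmean⟩ := hab p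
      have hbq : 0 ≤ b p * q p := mul_nonneg hb.le hq0
      have ha1 : a p ≤ 1 / (k : ℝ) := by linarith
      have hf0 : 0 ≤ f p := by
        simp only [hf]
        exact mul_nonneg (mul_nonneg hq0 (by linarith)) hb.le
      have hf1 : f p ≤ 1 := by
        simp only [hf]
        have : q p * (1 - q p) * b p = (b p * q p) * (1 - q p) := by ring
        rw [this]
        nlinarith
      have hcase : (h p = 1 / (k : ℝ)) ∨ (h p = 1 / (k : ℝ) - q p ∧ q p ≤ 1 / (k : ℝ) ∧ 1 - a p ≤ b p) := by
        simp only [hh, PP_one]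
        rw [if_pos (by linarith)]
        by_cases hlt : b p < 1 - a p
        · left
          rw [if_pos hlt]
          ring
        · right
          rw [if_neg hlt]
          push Not at hlt
          refine ⟨by ring, ?_, hlt⟩
          nlinarith
      rcases hcase with h0 | ⟨h0, hqk, hb1⟩
      · refine ⟨hf0, hf1, by rw [h0]; exact hinv0.le, by rw [h0]; linarith, ?_⟩
        rw [h0, hc8]
        linarith
      · refine ⟨hf0, hf1, by rw [h0]; linarith, by rw [h0]; linarith, ?_⟩
        rw [h0, hc8]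
        have hb23 : 2 / 3 ≤ b p := by linarith
        have hq23 : 2 / 3 ≤ 1 - q p := by linarith
        have h3 : 4 / 9 ≤ (1 - q p) * b p := by nlinarith
        have h4 : 4 / 9 * q p ≤ f p := by
          simp only [hf]
          have : q p * (1 - q p) * b p = ((1 - q p) * b p) * q p := by ring
          rw [this]
          exact mul_le_mul_of_nonneg_right h3 hq0
        linarith
    have hW1 : ∀ p : Fin k → P, Wn (ex a p) (ex b p) (ex q p) 1 - (1 - 1 / (k : ℝ)) =
        h (p ⟨0, by omega⟩) := by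
      intro p
      simp only [hh]
      unfold Wn
      rw [ex_fun a p 1 (by omega), ex_fun b p 1 (by omega), ex_fun q p 1 (by omega)]
      have e1 : ∀ g : P → ℝ, (fun i : Fin 1 => g (p (Fin.castLE (by omega : 1 ≤ k) i))) =
          fun _ => g (p ⟨0, by omega⟩) := by
        intro g
        funext i
        have : i = 0 := Subsingleton.elim _ _
        rw [this]
        rfl
      rw [e1 a, e1 b, e1 q]
    have hGn : ∀ p : Fin k → P, f (p ⟨1, by omega⟩) ≤
        k * Gn (ex a p) (ex b p) (ex q p) k := by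
      intro p
      have h3 := ftg k hk _ _ _ (hTD p) 1 (by omega)
      rw [ex_eq b p 1 (by omega), ex_eq q p 1 (by omega)] at h3
      have h4 := (hfacts (p ⟨1, by omega⟩)).1
      have h5 : f (p ⟨1, by omega⟩) ≤ Gn (ex a p) (ex b p) (ex q p) k := h3
      nlinarith
    set F : ℝ := ∑ p, π p * f p with hF
    set H : ℝ := ∑ p, π p * h p with hH
    have hF0 : 0 ≤ F := sum_nonneg fun p _ => mul_nonneg (hπ p).le (hfacts p).1
    have hH0 : 0 ≤ H := sum_nonneg fun p _ => mul_nonneg (hπ p).le (hfacts p).2.2.1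
    have hFH : c ≤ F + H := by
      rw [hF, hH, ← sum_add_distrib]
      calc c = ∑ p, π p * c := by rw [← sum_mul, hπ1, one_mul]
        _ ≤ _ := by
            apply sum_le_sum
            intro p _
            rw [← mul_add]
            exact mul_le_mul_of_nonneg_left (hfacts p).2.2.2.2 (hπ p).le
    -- the value of `F`
    have hFv : (∑ v, |y v - 1 / (k : ℝ)|) / (Fintype.card V : ℝ) = 2 * F := by
      have h3 := hφ (fun t => |t - 1 / (k : ℝ)|)
      rw [h3, mul_div_cancel_left₀ _ hN.ne', hF, mul_sum]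
      apply sum_congr rfl
      intro p _
      obtain ⟨ha, hb, hq0, hq1, hmean⟩ := hab p
      have hbq : 0 ≤ b p * q p := mul_nonneg hb.le hq0
      have h4 : |a p - 1 / (k : ℝ)| = b p * q p := by
        rw [abs_of_nonpos (by linarith)]
        linarith
      have h5 : |a p + b p - 1 / (k : ℝ)| = b p * (1 - q p) := by
        have : a p + b p - 1 / (k : ℝ) = b p * (1 - q p) := by linarith
        rw [this]
        exact abs_of_nonneg (mul_nonneg hb.le (by linarith))
      rw [h4, h5]
      simp only [hf]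
      ring
    -- the value of `H`
    have hHv : (NL y 1 : ℝ) / (Fintype.card V : ℝ) - (1 - 1 / (k : ℝ)) = H := by
      have h3 := e 1 (by rw [mem_range]; omega)
      rw [pow_one] at h3
      have h7 := sum_prod_pi π hπ1 k
      have h8 : ∑ p : Fin k → P, (∏ i, π (p i)) * (1 - 1 / (k : ℝ)) = 1 - 1 / (k : ℝ) := by
        rw [← sum_mul, h7, one_mul]
      rw [h3]
      nth_rewrite 1 [← h8]
      rw [← sum_sub_distrib]
      have h9 := sum_pairs π hπ1 k hk (fun _ => 1) h
      simp only [mul_one, one_mul, hπ1] at h9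
      rw [hH, ← h9]
      apply sum_congr rfl
      intro p _
      rw [← mul_sub, hW1 p]
    rw [hTh, hFv, hHv]
    have h7 := sum_prod_pi π hπ1 k
    calc 1 - ρ ^ k + κ * (c / 4) * min (2 * F) H ≤ 1 - ρ ^ k + κ * (F * H) := by
          have h8 : min (2 * F) H ≤ 2 * min F H := by
            rcases le_total F H with h9 | h9
            · rw [min_eq_left h9]
              exact min_le_left _ _
            · rw [min_eq_right h9]
              exact (min_le_right _ _).trans (by linarith)
          have h9 := min_aux hF0 hH0 hFH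
          have h10 : κ * (c / 4) * min (2 * F) H ≤ κ * (c / 4) * (2 * min F H) :=
            mul_le_mul_of_nonneg_left h8 (by positivity)
          have h11 := mul_le_mul_of_nonneg_left h9 hκ.le
          linarith
      _ = ∑ p : Fin k → P, (∏ i, π (p i)) *
            (1 - ρ ^ k + κ * (f (p ⟨1, by omega⟩) * h (p ⟨0, by omega⟩))) := by
          have h8 := sum_pairs π hπ1 k hk f h
          have h12 : ∀ p : Fin k → P, (∏ i, π (p i)) *
            (1 - ρ ^ k + κ * (f (p ⟨1, by omega⟩) * h (p ⟨0, by omega⟩))) =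
              (∏ i, π (p i)) * (1 - ρ ^ k) +
              κ * ((∏ i, π (p i)) * (f (p ⟨1, by omega⟩) * h (p ⟨0, by omega⟩))) := by
            intro p
            ring
          rw [sum_congr rfl (fun p _ => h12 p), sum_add_distrib, ← sum_mul, h7, one_mul,
            ← mul_sum, h8]
      _ ≤ _ := by
          refine Finset.sum_le_sum fun p _ => ?_
          refine mul_le_mul_of_nonneg_left ?_ (Finset.prod_nonneg fun i _ => (hπ (p i)).le)
          refine le_trans ?_ (hTWO _ _ _ (hTD p) ρ hρ0 hρ1 hρ)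
          have h8 := hfacts (p ⟨1, by omega⟩)
          have h9 := hfacts (p ⟨0, by omega⟩)
          have h10 : f (p ⟨1, by omega⟩) * h (p ⟨0, by omega⟩) ≤
              min (k * Gn (ex a p) (ex b p) (ex q p) k)
                (Wn (ex a p) (ex b p) (ex q p) 1 - (1 - 1 / (k : ℝ))) := by
            apply le_min
            · refine le_trans ?_ (hGn p)
              exact mul_le_of_le_one_right h8.1 h9.2.2.2.1
            · rw [hW1 p]
              exact mul_le_of_le_one_left h9.2.2.1 h8.2.1
          have h11 := mul_le_mul_of_nonneg_left h10 hκ.le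
          linarith

end Pool.Agent.Q238.XV
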