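import Pool.Agent.Q113.XV.Stm

set_option autoImplicit false

/-! Project XV (helper113), job P3s: the pieces for `k = 3` with a gain. -/

namespace Pool.Agent.Q238.XV

open Pool.Agent.W205.K5 Finset Pool.Agent.Q113.XV

theorem root3 {ρ : ℝ} (hρ0 : 0 < ρ) (hρ : ρ ^ 3 + (1 - ρ / 3) ^ 3 = 1) :
    26 * ρ ^ 2 + 9 * ρ = 27 ∧ 860 / 1000 ≤ ρ ∧ ρ ≤ 861 / 1000 := by
  have hq : 26 * ρ ^ 2 + 9 * ρ = 27 := by
    have h3 : ρ * (26 * ρ ^ 2 + 9 * ρ - 27) = 0 := by nlinarith [hρ]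
    rcases mul_eq_zero.1 h3 with h4 | h4
    · exact absurd h4 hρ0.ne'
    · linarith
  refine ⟨hq, ?_, ?_⟩
  · by_contra h0
    push Not at h0
    nlinarith
  · by_contra h0
    push Not at h0
    nlinarith

theorem piece31s (hC : S_CHORD) : PIECEs 3 1 := by
  refine ⟨1 / 200, by norm_num, ?_⟩
  intro w g hs h1 h2 ρ hρ0 hρ1 hρ
  have hKK1 : KK 1 = 0 := by norm_num [KK]
  have hKK2 : KK (1 + 1) = 1 / 2 := by norm_num [KK]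
  have hch := hC 3 w g (by norm_num) hs 1 (by norm_num) (by norm_num) h1 h2
  have a0 : g 1 ≤ g 0 + w 1 := hs.add 0 (by norm_num)
  have a1 : g 2 ≤ g 1 + w 2 := hs.add 1 (by norm_num)
  have j2 : ((2 : ℕ) : ℝ) ≤ g 2 := hs.jen 2 (by norm_num)
  have w3 : w 3 = 1 := hs.wk
  have u1 : w 1 ≤ 1 := hs.w1 1 (by norm_num)
  have u2 : w 2 ≤ 1 := hs.w1 2 (by norm_num)
  rw [hKK1, hKK2] at hch
  rw [hKK1] at h1
  norm_num at hch j2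
  have h4 : ρ ^ 3 + (1 - ρ / 3) ^ 3 = 1 := by simpa using hρ
  obtain ⟨hq, hlo, hhi⟩ := root3 hρ0 h4
  have b0 : g 0 / 2 ≤ w 0 := by linarith
  have hTh : Th 3 ρ (fun j => w (3 - j)) = (1 - ρ) ^ 3 + 3 * ρ * (1 - ρ) ^ 2 * w 2 +
      3 * ρ ^ 2 * (1 - ρ) * w 1 + ρ ^ 3 * w 0 := by
    simp only [Th, Finset.sum_range_succ, Finset.sum_range_zero]
    norm_num [Nat.choose, w3]
    ring
  rw [hTh]
  have hmin : min (g 0) (w (3 - 1) - (1 - 1 / ((3 : ℕ) : ℝ))) ≤ g 0 := min_le_left _ _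
  have c12 : 0 ≤ 3 * ρ ^ 2 * (1 - ρ) - 3 * ρ * (1 - ρ) ^ 2 := by
    have e : 3 * ρ ^ 2 * (1 - ρ) - 3 * ρ * (1 - ρ) ^ 2 = 3 * ρ * (1 - ρ) * (2 * ρ - 1) := by ring
    rw [e]
    have e1 : 0 ≤ 1 - ρ := by linarith
    have e2 : 0 ≤ 2 * ρ - 1 := by linarith
    positivity
  have c1 : 0 ≤ 3 * ρ ^ 2 * (1 - ρ) := by
    have e1 : 0 ≤ 1 - ρ := by linarith
    positivity
  have m2 : 0 ≤ (3 * ρ ^ 2 * (1 - ρ) - 3 * ρ * (1 - ρ) ^ 2) * (1 - w 2) :=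
    mul_nonneg c12 (by linarith)
  have m1 : 0 ≤ (3 * ρ ^ 2 * (1 - ρ)) * (g 0 - (1 - w 1) - (1 - w 2)) :=
    mul_nonneg c1 (by linarith)
  have m0 : 0 ≤ ρ ^ 3 * (w 0 - g 0 / 2) := mul_nonneg (by positivity) (by linarith)
  have c0 : 1 / 200 ≤ ρ ^ 3 / 2 - 3 * ρ ^ 2 * (1 - ρ) := by
    have e : ρ ^ 3 / 2 - 3 * ρ ^ 2 * (1 - ρ) = ρ ^ 2 * (7 * ρ / 2 - 3) := by ring
    rw [e]
    have e1 : (860 / 1000 : ℝ) ^ 2 ≤ ρ ^ 2 := pow_le_pow_left₀ (by norm_num) hlo 2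
    have e2 : (1 : ℝ) / 100 ≤ 7 * ρ / 2 - 3 := by linarith
    nlinarith
  have mg : 0 ≤ (ρ ^ 3 / 2 - 3 * ρ ^ 2 * (1 - ρ) - 1 / 200) * (g 0) :=
    mul_nonneg (by linarith) h1
  nlinarith [m2, m1, m0, mg]

theorem piece32s (hL : S_LINE) (hC : S_CHORD) : PIECEs 3 2 := by
  refine ⟨1 / 1000, by norm_num, ?_⟩
  intro w g hs h1 h2 ρ hρ0 hρ1 hρ
  have hKK2 : KK 2 = 1 / 2 := by norm_num [KK]
  have hKK3 : KK (2 + 1) = 8 / 9 := by norm_num [KK]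
  have hch := hC 3 w g (by norm_num) hs 2 (by norm_num) (by norm_num) h1 h2
  have hln := hL 3 w g hs 1 (1 / 6) (2 / 3) (by norm_num) (by norm_num) (by norm_num)
    (by norm_num) (by intro n hn1 hn2; interval_cases n <;> norm_num)
  have a0 : g 1 ≤ g 0 + w 1 := hs.add 0 (by norm_num)
  have a1 : g 2 ≤ g 1 + w 2 := hs.add 1 (by norm_num)
  have j2 : ((2 : ℕ) : ℝ) ≤ g 2 := hs.jen 2 (by norm_num)
  have w3 : w 3 = 1 := hs.wk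
  rw [hKK2, hKK3] at hch
  rw [hKK2] at h1
  rw [hKK3] at h2
  norm_num at hch j2
  have h4 : ρ ^ 3 + (1 - ρ / 3) ^ 3 = 1 := by simpa using hρ
  obtain ⟨hq, hlo, hhi⟩ := root3 hρ0 h4
  have hsl : 1 / 2 ≤ 108 - 198 * ρ + 85 * ρ ^ 2 := by nlinarith
  -- the slacks
  have b1 : 0 ≤ w 1 - (4 - g 0) / 7 := by linarith
  have b2 : 0 ≤ w 2 - (2 - g 0 - w 1) := by linarith
  have b0 : 0 ≤ w 0 - (4 / 21 + 5 / 42 * g 0) := by linarith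
  have be : 0 ≤ 8 / 9 - g 0 := by linarith
  have c2 : 0 ≤ 3 * ρ * (1 - ρ) ^ 2 - 1 / 1000 := by
    have e1 : (1 - ρ) ^ 2 ≥ (139 / 1000 : ℝ) ^ 2 :=
      pow_le_pow_left₀ (by norm_num) (by linarith) 2
    nlinarith
  have c12 : 0 ≤ 3 * ρ ^ 2 * (1 - ρ) - 3 * ρ * (1 - ρ) ^ 2 + 1 / 1000 := by
    have e : 3 * ρ ^ 2 * (1 - ρ) - 3 * ρ * (1 - ρ) ^ 2 = 3 * ρ * (1 - ρ) * (2 * ρ - 1) := by ring
    rw [e]
    have e1 : 0 ≤ 1 - ρ := by linarith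
    have e2 : 0 ≤ 2 * ρ - 1 := by linarith
    positivity
  have c0 : 0 ≤ ρ ^ 3 := by positivity
  have ce : 0 ≤ ρ * (108 - 198 * ρ + 85 * ρ ^ 2) / 42 - 6 / 7 / 1000 := by nlinarith
  have m2 := mul_nonneg c2 b2
  have m1 := mul_nonneg c12 b1
  have m0 := mul_nonneg c0 b0
  have me := mul_nonneg ce be
  have hTh : Th 3 ρ (fun j => w (3 - j)) = (1 - ρ) ^ 3 + 3 * ρ * (1 - ρ) ^ 2 * w 2 +
      3 * ρ ^ 2 * (1 - ρ) * w 1 + ρ ^ 3 * w 0 := by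
    simp only [Th, Finset.sum_range_succ, Finset.sum_range_zero]
    norm_num [Nat.choose, w3]
    ring
  rw [hTh]
  have hmin : min (g 0) (w (3 - 1) - (1 - 1 / ((3 : ℕ) : ℝ))) ≤ w 2 - 2 / 3 := by
    refine (min_le_right _ _).trans (le_of_eq ?_)
    norm_num
  have key : (1 - ρ) ^ 3 + 3 * ρ * (1 - ρ) ^ 2 * w 2 + 3 * ρ ^ 2 * (1 - ρ) * w 1 + ρ ^ 3 * w 0 -
      (1 - ρ ^ 3) - 1 / 1000 * (w 2 - 2 / 3) =
      (3 * ρ * (1 - ρ) ^ 2 - 1 / 1000) * (w 2 - (2 - g 0 - w 1)) +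
      (3 * ρ ^ 2 * (1 - ρ) - 3 * ρ * (1 - ρ) ^ 2 + 1 / 1000) * (w 1 - (4 - g 0) / 7) +
      ρ ^ 3 * (w 0 - (4 / 21 + 5 / 42 * g 0)) +
      (ρ * (108 - 198 * ρ + 85 * ρ ^ 2) / 42 - 6 / 7 / 1000) * (8 / 9 - g 0) := by
    linear_combination h4
  linarith

theorem t_P3s : S_LINE → S_CHORD → (PIECEs 3 1 ∧ PIECEs 3 2) :=
  fun hL hC => ⟨piece31s hC, piece32s hL hC⟩

end Pool.Agent.Q238.XV
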