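import Pool.Agent.Q113.XV.Stm
import Pool.Agent.W681.K5.P54

set_option autoImplicit false

/-! Project XV (helper113), job P54s: the piece `k = 5`, `m = 4` with a gain (the proof of
`Pool.Agent.W681.K5.P54` with room). -/

namespace Pool.Agent.Q238.XV

open Pool.Agent.W205.K5 Pool.Agent.W681.K5 Pool.Agent.Q113.XV

theorem piece54s (hL : S_LINE) (hC : S_CHORD) : PIECEs 5 4 := by
  refine ⟨1 / 100000, by norm_num, ?_⟩
  intro w g hs hg1 hg2 ρ h0 h1 hρ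
  have hρ' : ρ ^ 5 + (1 - ρ / 5) ^ 5 = 1 := by
    have := hρ
    push_cast at this
    exact this
  obtain ⟨ha, hb⟩ := rho_loc h0 h1 hρ'
  have hK4 : KK 4 = 81 / 64 := by rw [KK]; norm_num
  have hK5 : KK (4 + 1) = 1024 / 625 := by rw [KK]; norm_num
  have hch := hC 5 w g le_rfl hs 4 (by norm_num) (by norm_num) hg1 hg2
  rw [hK4, hK5] at hch
  rw [hK4] at hg1
  rw [hK5] at hg2
  -- lines
  have l3 := hL 5 w g hs 3 (11 / 20) (12 / 5) (by norm_num) (by norm_num) (by norm_num) (by norm_num)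
    (by
      intro n hn1 hn2
      interval_cases n <;> norm_num)
  have l2 := hL 5 w g hs 2 (101 / 620) (144 / 155) (by norm_num) (by norm_num) (by norm_num) (by norm_num)
    (by
      intro n hn1 hn2
      interval_cases n <;> norm_num)
  have l1 := hL 5 w g hs 1 (491 / 14420) (1728 / 3605) (by norm_num) (by norm_num) (by norm_num) (by norm_num)
    (by
      intro n hn1 hn2
      interval_cases n <;> norm_num)
  have a0 := hs.add 0 (by norm_num)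
  have a1 := hs.add 1 (by norm_num)
  have a2 := hs.add 2 (by norm_num)
  have a3 := hs.add 3 (by norm_num)
  have j4 := hs.jen 4 (by norm_num)
  have w5 := hs.wk
  norm_num at a0 a1 a2 a3 j4
  -- coefficients
  have hTh : Th 5 ρ (fun j => w (5 - j)) = ρ ^ 5 * w 0 + 5 * ρ ^ 4 * (1 - ρ) * w 1
      + 10 * ρ ^ 3 * (1 - ρ) ^ 2 * w 2 + 10 * ρ ^ 2 * (1 - ρ) ^ 3 * w 3 + 5 * ρ * (1 - ρ) ^ 4 * w 4
      + (1 - ρ) ^ 5 * w 5 := by
    rw [Th]
    simp only [Finset.sum_range_succ, Finset.sum_range_zero]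
    norm_num [Nat.choose]
    ring
  rw [hTh, w5]
  have hmin : min (g 0) (w (5 - 1) - (1 - 1 / ((5 : ℕ) : ℝ))) ≤ w 4 - 4 / 5 := by
    refine (min_le_right _ _).trans (le_of_eq ?_)
    norm_num
  have hq0 : 0 < 1 - ρ := by linarith
  set q : ℝ := 1 - ρ with hq
  have hqb : q < 86765 / 1000000 := by rw [hq]; linarith
  have hqa : 86764 / 1000000 < q := by rw [hq]; linarith
  obtain ⟨c0, hc0⟩ : ∃ c, c = ρ ^ 5 := ⟨_, rfl⟩
  obtain ⟨c1, hc1⟩ : ∃ c, c = 5 * ρ ^ 4 * q := ⟨_, rfl⟩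
  obtain ⟨c2, hc2⟩ : ∃ c, c = 10 * ρ ^ 3 * q ^ 2 := ⟨_, rfl⟩
  obtain ⟨c3, hc3⟩ : ∃ c, c = 10 * ρ ^ 2 * q ^ 3 := ⟨_, rfl⟩
  obtain ⟨c4, hc4⟩ : ∃ c, c = 5 * ρ * q ^ 4 := ⟨_, rfl⟩
  obtain ⟨c5, hc5⟩ : ∃ c, c = q ^ 5 := ⟨_, rfl⟩
  have hsum : c0 + c1 + c2 + c3 + c4 + c5 = 1 := by
    rw [hc0, hc1, hc2, hc3, hc4, hc5, hq]; ring
  have hrel : c0 * (1024 / 3125) + c1 * (256 / 625) + c2 * (64 / 125) + c3 * (16 / 25) + c4 * (4 / 5) + c5
      = 1 - c0 := by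
    rw [hc0, hc1, hc2, hc3, hc4, hc5, hq]
    linear_combination hρ'
  have hb0 : (913235 / 1000000 : ℝ) ^ 5 ≤ c0 := by
    rw [hc0]; exact pow_le_pow_left₀ (by norm_num) ha.le 5
  have hb1 : c1 ≤ 5 * (913236 / 1000000 : ℝ) ^ 4 * (86765 / 1000000) := by
    rw [hc1]
    exact mul_le_mul (mul_le_mul_of_nonneg_left (pow_le_pow_left₀ h0.le hb.le 4) (by norm_num)) hqb.le
      hq0.le (by norm_num)
  have hb2 : c2 ≤ 10 * (913236 / 1000000 : ℝ) ^ 3 * (86765 / 1000000) ^ 2 := by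
    rw [hc2]
    exact mul_le_mul (mul_le_mul_of_nonneg_left (pow_le_pow_left₀ h0.le hb.le 3) (by norm_num))
      (pow_le_pow_left₀ hq0.le hqb.le 2) (by positivity) (by norm_num)
  have hb3 : c3 ≤ 10 * (913236 / 1000000 : ℝ) ^ 2 * (86765 / 1000000) ^ 3 := by
    rw [hc3]
    exact mul_le_mul (mul_le_mul_of_nonneg_left (pow_le_pow_left₀ h0.le hb.le 2) (by norm_num))
      (pow_le_pow_left₀ hq0.le hqb.le 3) (by positivity) (by norm_num)
  have hp4 : 1 / 5000 ≤ c4 := by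
    rw [hc4]
    have e1 : (86764 / 1000000 : ℝ) ^ 4 ≤ q ^ 4 := pow_le_pow_left₀ (by norm_num) hqa.le 4
    have e2 : 5 * (913235 / 1000000 : ℝ) * (86764 / 1000000) ^ 4 ≤ 5 * ρ * q ^ 4 :=
      mul_le_mul (by linarith) e1 (by norm_num) (by linarith)
    refine le_trans ?_ e2
    norm_num
  have h43 : c4 ≤ c3 := by
    rw [hc4, hc3]
    have e : 10 * ρ ^ 2 * q ^ 3 - 5 * ρ * q ^ 4 = 5 * ρ * q ^ 3 * (2 * ρ - q) := by ring
    have : 0 ≤ 5 * ρ * q ^ 3 * (2 * ρ - q) := mul_nonneg (by positivity) (by linarith)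
    linarith
  have h32 : c3 ≤ c2 := by
    rw [hc3, hc2]
    have e : 10 * ρ ^ 3 * q ^ 2 - 10 * ρ ^ 2 * q ^ 3 = 10 * ρ ^ 2 * q ^ 2 * (ρ - q) := by ring
    have : 0 ≤ 10 * ρ ^ 2 * q ^ 2 * (ρ - q) := mul_nonneg (by positivity) (by linarith)
    linarith
  have h21 : c2 ≤ c1 := by
    rw [hc2, hc1]
    have e : 5 * ρ ^ 4 * q - 10 * ρ ^ 3 * q ^ 2 = 5 * ρ ^ 3 * q * (ρ - 2 * q) := by ring
    have : 0 ≤ 5 * ρ ^ 3 * q * (ρ - 2 * q) := mul_nonneg (by positivity) (by linarith)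
    linarith
  have hp0 : 0 ≤ c0 := by rw [hc0]; positivity
  rw [← hc0, ← hc1, ← hc2, ← hc3, ← hc4, ← hc5, mul_one]
  clear hTh hρ hρ' hc0 hc1 hc2 hc3 hc4 hc5
  -- backwards bound
  obtain ⟨S3, hS3⟩ : ∃ S, S = c4 + (c3 - c4) * (11 / 31) := ⟨_, rfl⟩
  obtain ⟨S2, hS2⟩ : ∃ S, S = S3 + (c2 - S3) * (101 / 721) := ⟨_, rfl⟩
  have p1 : 0 ≤ (c4 - 1 / 100000) * (w 4 - (4 - g 3)) := mul_nonneg (by linarith) (by linarith)
  have p2 : 0 ≤ (c4 - 1 / 100000) * (g 2 + w 3 - g 3) := mul_nonneg (by linarith) (by linarith)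
  have p3 : 0 ≤ (c3 - c4 + 1 / 100000) * (w 3 - (48 / 31 - 11 / 31 * g 2)) :=
    mul_nonneg (by linarith) (by linarith)
  have p4 : 0 ≤ (S3 - 1 / 100000 * (20 / 31)) * (g 1 + w 2 - g 2) :=
    mul_nonneg (by linarith) (by linarith)
  have p5 : 0 ≤ (c2 - S3 + 1 / 100000 * (20 / 31)) * (w 2 - (576 / 721 - 101 / 721 * g 1)) :=
    mul_nonneg (by linarith) (by linarith)
  have p6 : 0 ≤ (S2 - 1 / 100000 * (400 / 721)) * (g 0 + w 1 - g 1) :=
    mul_nonneg (by linarith) (by linarith)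
  have p7 : 0 ≤ (c1 - S2 + 1 / 100000 * (400 / 721)) * (w 1 - (6912 / 14911 - 491 / 14911 * g 0)) :=
    mul_nonneg (by linarith) (by linarith)
  -- the value at the end points
  have hF4 : 1 / 100000 ≤ c0 * (81 / 256) - c1 * (37 / 64) - c2 * (7 / 16) - c3 * (1 / 4) := by
    norm_num at hb0 hb1 hb2 hb3 ⊢
    linarith
  have p8 : 0 ≤ (c0 * (81 / 256) - c1 * (37 / 64) - c2 * (7 / 16) - c3 * (1 / 4) -
      1 / 100000 * (8000 / 14911) * (1024 / 625 - 81 / 64)) * (1024 / 625 - g 0) :=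
    mul_nonneg (by linarith) (by linarith)
  have p9 : 0 ≤ c0 * (w 0 * (1024 / 625 - 81 / 64) - ((1 - 1 / 4) ^ 4 * (1024 / 625 - g 0)
      + (1 - 1 / (4 + 1)) ^ (4 + 1) * (g 0 - 81 / 64))) := by
    refine mul_nonneg hp0 ?_
    have := hch
    push_cast at this
    linarith
  subst hS2
  subst hS3
  have hfin : 0 ≤ (c0 * w 0 + c1 * w 1 + c2 * w 2 + c3 * w 3 + c4 * w 4 + c5 - (1 - c0) -
      1 / 100000 * (w 4 - 4 / 5)) * (1024 / 625 - 81 / 64) := by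
    have key : (c0 * w 0 + c1 * w 1 + c2 * w 2 + c3 * w 3 + c4 * w 4 + c5 - (1 - c0) -
        1 / 100000 * (w 4 - 4 / 5)) * (1024 / 625 - 81 / 64) =
        (1024 / 625 - 81 / 64) * ((c4 - 1 / 100000) * (w 4 - (4 - g 3)) +
        (c4 - 1 / 100000) * (g 2 + w 3 - g 3) +
        (c3 - c4 + 1 / 100000) * (w 3 - (48 / 31 - 11 / 31 * g 2)) +
        (c4 + (c3 - c4) * (11 / 31) - 1 / 100000 * (20 / 31)) * (g 1 + w 2 - g 2) +
        (c2 - (c4 + (c3 - c4) * (11 / 31)) + 1 / 100000 * (20 / 31)) *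
          (w 2 - (576 / 721 - 101 / 721 * g 1)) +
        (c4 + (c3 - c4) * (11 / 31) + (c2 - (c4 + (c3 - c4) * (11 / 31))) * (101 / 721) -
          1 / 100000 * (400 / 721)) * (g 0 + w 1 - g 1) +
        (c1 - (c4 + (c3 - c4) * (11 / 31) + (c2 - (c4 + (c3 - c4) * (11 / 31))) * (101 / 721)) +
          1 / 100000 * (400 / 721)) * (w 1 - (6912 / 14911 - 491 / 14911 * g 0))) +
        (c0 * (81 / 256) - c1 * (37 / 64) - c2 * (7 / 16) - c3 * (1 / 4) -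
          1 / 100000 * (8000 / 14911) * (1024 / 625 - 81 / 64)) * (1024 / 625 - g 0) +
        c0 * (w 0 * (1024 / 625 - 81 / 64) - ((1 - 1 / 4) ^ 4 * (1024 / 625 - g 0)
          + (1 - 1 / (4 + 1)) ^ (4 + 1) * (g 0 - 81 / 64))) := by
      linear_combination (g 0 - 81 / 64) * hrel + (1024 / 625 - g 0) * hsum
    rw [key]
    have hpos : (0 : ℝ) ≤ 1024 / 625 - 81 / 64 := by norm_num
    have hs7 := mul_nonneg hpos (add_nonneg (add_nonneg (add_nonneg (add_nonneg (add_nonneg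
      (add_nonneg p1 p2) p3) p4) p5) p6) p7)
    exact add_nonneg (add_nonneg hs7 p8) p9
  have hpos : (0 : ℝ) < 1024 / 625 - 81 / 64 := by norm_num
  have := nonneg_of_mul_nonneg_left hfin hpos
  linarith

theorem t_P54s : S_LINE → S_CHORD → PIECEs 5 4 := piece54s

end Pool.Agent.Q238.XV
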